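import Pool.Agent.Helper77.SO.St

/-!
Project SO (MP_7a9ddc_co), module FI2: final assembly.
-/

set_option autoImplicit false

namespace Pool.Agent.Helper30.SO.FI2

open Equiv Equiv.Perm Pool.Agent.Helper35.PM Pool.Agent.Helper77.HY Pool.Agent.Helper77.OF4
  Pool.Agent.Helper77.SO

theorem main (hInd : StInd) (hIq : StIq) (hCo : Pool.Agent.Helper77.OF4.StCo)
    (hFi : Pool.Agent.Helper77.OF4.StFi) : StFi2 := by
  classical
  intro L hL4 hLe hfin V _ G R hconn htf hHC C A hCA
  have : Finite G.Dart := by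
    refine Finite.of_injective (fun d : G.Dart => d.toProd) ?_
    rintro ⟨a, ha⟩ ⟨b, hb⟩ h
    change a = b at h
    subst h
    rfl
  have : Nonempty V := hconn.nonempty
  by_cases hodd : ∃ d, OddD R.map d
  · have hC : Conn R.map := by
      intro v w
      have h1 := (SimpleGraph.reachable_iff_reflTransGen v w).1 (hconn.preconnected v w)
      induction h1 with
      | refl => exact Relation.ReflTransGen.refl
      | tail _ h ih => exact ih.tail ⟨⟨(_, _), h⟩, rfl, rfl⟩
    obtain ⟨W, hW, hQ⟩ := hInd L hL4 hLe hfin (Nat.card V) V G.Dart R.map le_rfl hC hHC hodd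
    have hind : ∀ a ∈ W, ∀ b ∈ W, ¬ G.Adj a b := by
      intro a ha b hb h
      exact hW ⟨(a, b), h⟩ ha hb
    have hineq := hIq V G R W htf hind hQ
    obtain ⟨r', U, τ, Z, -, -, -, hτ, hZ, hne, hac, -⟩ := hQ
    obtain ⟨q⟩ := hac.colorable_two
    let p : V → Bool := fun v =>
      if h : ∃ d : G.Dart, d.fst = v then decide (q (τ h.choose) = 0) else true
    have hp : ∀ d : G.Dart, p d.fst = decide (q (τ d) = 0) := by
      intro d
      have hex : ∃ e : G.Dart, e.fst = d.fst := ⟨d, rfl⟩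
      have h4 : p d.fst = decide (q (τ hex.choose) = 0) := dif_pos hex
      rw [h4, hτ hex.choose d hex.choose_spec]
    refine hCo V G W p hind ?_ hineq C A hCA
    intro u v hu hv h
    have h5 := hp ⟨(u, v), h⟩
    have h6 := hp ⟨(v, u), h.symm⟩
    change p u = _ at h5
    change p v = _ at h6
    have hadj : (FG R.map.ι τ Z).Adj (τ (⟨(u, v), h⟩ : G.Dart)) (τ (⟨(v, u), h.symm⟩ : G.Dart)) := by
      refine ⟨(hne ⟨(u, v), h⟩).symm, ?_, ?_, Or.inl ⟨⟨(u, v), h⟩, rfl, rfl⟩⟩
      · rw [hZ]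
        exact hu
      · rw [hZ]
        exact hv
    have h7 := q.valid hadj
    rw [h5, h6]
    have key : ∀ x y : Fin 2, x ≠ y → decide (x = 0) ≠ decide (y = 0) := by decide
    exact key _ _ h7
  · refine hFi V G R ∅ hconn htf ⟨by simp, ?_⟩ C A hCA
    intro d hd
    exact absurd ⟨d, hd⟩ hodd

end Pool.Agent.Helper30.SO.FI2
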